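import Pool.Agent.Lib_helper11.TD.Blocks

/-!
# The roots of the reflections over transpositions (MP_97f789_ag, Theorem D)
-/

set_option autoImplicit false

namespace Pool.Agent.TD

open Equiv

section Basic

variable {k V : Type*} [Field k] [AddCommGroup V] [Module k V]

theorem refl_apply (b : LinearMap.BilinForm k V) (v x : V) :
    refl b v x = x - (2 / b v v * b v x) • v := by
  simp [refl, smul_smul]

theorem rho_inv_apply {G : Type*} [Group G] (ρ : G →* Module.End k V) (g : G) (x : V) :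
    ρ g (ρ g⁻¹ x) = x := by
  rw [← Module.End.mul_apply, ← map_mul, mul_inv_cancel, map_one, Module.End.one_apply]

theorem refl_conj {G : Type*} [Group G] (ρ : G →* Module.End k V) (b : LinearMap.BilinForm k V)
    (hb : ∀ g x y, b (ρ g x) (ρ g y) = b x y) (v : V) (g : G) :
    ρ g * refl b v * ρ g⁻¹ = refl b (ρ g v) := by
  have hinv : ∀ x, ρ g (ρ g⁻¹ x) = x := rho_inv_apply ρ g
  ext x
  rw [Module.End.mul_apply, Module.End.mul_apply, refl_apply, refl_apply, map_sub, map_smul, hinv,
    hb g v v]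
  congr 3
  rw [← hb g v (ρ g⁻¹ x), hinv]

end Basic

/-- The number of fixed points. -/
def fx {k : ℕ} (π : Perm (Fin k)) : ℕ := Fintype.card {x // π x = x}

theorem fx_support {k : ℕ} (π : Perm (Fin k)) : fx π + π.support.card = k := by
  have h2 : π.support = Finset.univ.filter (fun x => ¬ π x = x) := by
    ext x
    simp [Perm.mem_support]
  rw [fx, Fintype.card_subtype, h2, Finset.card_filter_add_card_filter_not, Finset.card_univ,
    Fintype.card_fin]

theorem fx_one {k : ℕ} : fx (1 : Perm (Fin k)) = k := by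
  have := fx_support (1 : Perm (Fin k))
  simpa using this

theorem fx_swap {k : ℕ} {a c : Fin k} (h : a ≠ c) : fx (swap a c) + 2 = k := by
  have := fx_support (swap a c)
  rwa [Perm.card_support_swap h] at this

theorem fx_adj {k : ℕ} {a c d : Fin k} (h1 : a ≠ c) (h2 : a ≠ d) (h3 : c ≠ d) :
    fx (swap a c * swap a d) + 3 = k := by
  have := fx_support (swap a c * swap a d)
  rwa [(Perm.isThreeCycle_swap_mul_swap_same h1 h2 h3).card_support] at this

theorem fx_dis {k : ℕ} {a c d e : Fin k} (h1 : a ≠ c) (h2 : d ≠ e) (h3 : a ≠ d) (h4 : a ≠ e)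
    (h5 : c ≠ d) (h6 : c ≠ e) : fx (swap a c * swap d e) + 4 = k := by
  have := fx_support (swap a c * swap d e)
  have hd : Perm.Disjoint (swap a c) (swap d e) := by
    intro x
    by_cases hx : x = a
    · right
      rw [swap_apply_of_ne_of_ne (hx ▸ h3) (hx ▸ h4)]
    · by_cases hx2 : x = c
      · right
        rw [swap_apply_of_ne_of_ne (hx2 ▸ h5) (hx2 ▸ h6)]
      · left
        rw [swap_apply_of_ne_of_ne hx hx2]
  rwa [hd.card_support_mul, Perm.card_support_swap h1, Perm.card_support_swap h2] at this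

section Val

variable {p : ℕ} [hp : Fact p.Prime] {V : Type*} [AddCommGroup V] [Module ℚ_[p] V]
  [FiniteDimensional ℚ_[p] V] {G : Type*} [Group G]

/-- The scalar products of roots modulo `p`. -/
theorem val (ρ : G →* Module.End ℚ_[p] V) (b : LinearMap.BilinForm ℚ_[p] V)
    (hs : ∀ x y, b x y = b y x) {k : ℕ} (π₁ π₂ : G →* Perm (Fin k))
    (hdim : Module.finrank ℚ_[p] V + 4 = 2 * k)
    (htr : ∀ g, ‖LinearMap.trace ℚ_[p] V (ρ g) - ((fx (π₁ g) : ℚ_[p]) + fx (π₂ g) - 4)‖ < 1)
    {g g' : G} {v w : V} (hv : b v v ≠ 0) (hw : b w w ≠ 0) (hg : ρ g = refl b v)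
    (hg' : ρ g' = refl b w) :
    ‖4 * b v w ^ 2 / (b v v * b w w) -
      ((fx (π₁ (g * g')) : ℚ_[p]) + fx (π₂ (g * g')) - 2 * k + 4)‖ < 1 := by
  have h1 := htr (g * g')
  rw [map_mul, hg, hg', td_refl_trace b hs v w hv hw] at h1
  have h2 : (Module.finrank ℚ_[p] V : ℚ_[p]) = 2 * k - 4 := by
    have h3 : ((Module.finrank ℚ_[p] V + 4 : ℕ) : ℚ_[p]) = ((2 * k : ℕ) : ℚ_[p]) := by rw [hdim]
    push_cast at h3
    linear_combination h3
  rw [h2] at h1
  convert h1 using 2
  ring

end Val

end Pool.Agent.TD
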