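import Pool.Agent.Lib_helper11.TD.Defs
import Pool.Agent.Lib_helper11.TD.Side

/-!
# The action of the Galois group on the roots (MP_97f789_ag, Theorem D)
-/

set_option autoImplicit false

namespace Pool.Agent.TD

open NumberField Polynomial Equiv Pool.Agent.TT

variable {K : Type} [Field K] [Algebra K Qbar]

theorem rts_map {P : (𝓞 K)[X]} {β : Qbar} (hβ : β ∈ rts P) (σ : Qbar ≃ₐ[K] Qbar) :
    σ β ∈ rts P := by
  have h1 : P.eval₂ ((algebraMap K Qbar).comp (algebraMap (𝓞 K) K)) β = 0 := hβ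
  have h2 := congrArg (σ : Qbar →+* Qbar) h1
  rw [map_zero, Polynomial.hom_eval₂] at h2
  have h3 : (σ : Qbar →+* Qbar).comp ((algebraMap K Qbar).comp (algebraMap (𝓞 K) K)) =
      (algebraMap K Qbar).comp (algebraMap (𝓞 K) K) := by
    apply RingHom.ext
    intro x
    exact σ.commutes (algebraMap (𝓞 K) K x)
  rw [h3] at h2
  exact h2

/-- The action on the roots. -/
noncomputable def act (P : (𝓞 K)[X]) : (Qbar ≃ₐ[K] Qbar) →* Perm (rts P) where
  toFun σ :=
    { toFun := fun β => ⟨σ β, rts_map β.2 σ⟩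
      invFun := fun β => ⟨σ⁻¹ β, rts_map β.2 σ⁻¹⟩
      left_inv := by
        intro β
        apply Subtype.ext
        change (σ⁻¹ * σ) (β : Qbar) = β
        rw [inv_mul_cancel, AlgEquiv.one_apply]
      right_inv := by
        intro β
        apply Subtype.ext
        change (σ * σ⁻¹) (β : Qbar) = β
        rw [mul_inv_cancel, AlgEquiv.one_apply] }
  map_one' := by
    apply Equiv.ext
    intro β
    rfl
  map_mul' := by
    intro σ τ
    apply Equiv.ext
    intro β
    rfl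

theorem act_apply (P : (𝓞 K)[X]) (σ : Qbar ≃ₐ[K] Qbar) (β : rts P) :
    ((act P σ β : rts P) : Qbar) = σ β := rfl

theorem rts_card [NumberField K] {P : (𝓞 K)[X]} {k : ℕ} (hk : 1 ≤ k) (hd : P.natDegree = k)
    (hs : (P.map (algebraMap (𝓞 K) K)).Separable) : Nonempty (rts P ≃ Fin k) := by
  classical
  have hinj : Function.Injective (algebraMap (𝓞 K) K) := RingOfIntegers.coe_injective
  have h0 : P.map (algebraMap (𝓞 K) K) ≠ 0 := by
    intro h
    rw [Polynomial.map_eq_zero_iff hinj] at h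
    rw [h, natDegree_zero] at hd
    omega
  have h1 : rts P = (P.map (algebraMap (𝓞 K) K)).rootSet Qbar := by
    ext β
    rw [Polynomial.mem_rootSet, Polynomial.aeval_def, Polynomial.eval₂_map]
    exact ⟨fun h => ⟨h0, h⟩, fun h => h.2⟩
  have h2 := Polynomial.card_rootSet_eq_natDegree (K := Qbar) hs (IsAlgClosed.splits _)
  rw [Polynomial.natDegree_map_eq_of_injective hinj, hd] at h2
  rw [h1]
  exact ⟨Fintype.equivFinOfCardEq h2⟩

/-- The action on the roots, as permutations of `Fin k`. -/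
noncomputable def actF {P : (𝓞 K)[X]} {k : ℕ} (e : rts P ≃ Fin k) :
    (Qbar ≃ₐ[K] Qbar) →* Perm (Fin k) :=
  (e.permCongrHom.toMonoidHom).comp (act P)

theorem actF_apply {P : (𝓞 K)[X]} {k : ℕ} (e : rts P ≃ Fin k) (σ : Qbar ≃ₐ[K] Qbar) (x : Fin k) :
    actF e σ x = e (act P σ (e.symm x)) := rfl

theorem actF_fx {P : (𝓞 K)[X]} {k : ℕ} (e : rts P ≃ Fin k) (σ : Qbar ≃ₐ[K] Qbar) :
    fx (actF e σ) = Nat.card {β : rts P // σ β = β} := by
  rw [fx, ← Nat.card_eq_fintype_card]
  apply Nat.card_congr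
  refine e.symm.subtypeEquiv ?_
  intro x
  rw [actF_apply, ← e.eq_symm_apply, ← Subtype.val_inj, act_apply]

theorem actF_trans {P : (𝓞 K)[X]} {k : ℕ} (e : rts P ≃ Fin k) (h : TwoTransitive P)
    (a c d f : Fin k) (hac : a ≠ c) (hdf : d ≠ f) : ∃ σ, actF e σ a = d ∧ actF e σ c = f := by
  obtain ⟨σ, h1, h2⟩ := h _ (e.symm a).2 _ (e.symm c).2 _ (e.symm d).2 _ (e.symm f).2
    (by rw [Ne, Subtype.val_inj]; exact fun h => hac (e.symm.injective h))
    (by rw [Ne, Subtype.val_inj]; exact fun h => hdf (e.symm.injective h))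
  refine ⟨σ, ?_, ?_⟩
  · rw [actF_apply, ← e.eq_symm_apply, ← Subtype.val_inj, act_apply]
    exact h1
  · rw [actF_apply, ← e.eq_symm_apply, ← Subtype.val_inj, act_apply]
    exact h2

theorem actF_one {P : (𝓞 K)[X]} {k : ℕ} (e : rts P ≃ Fin k) {σ : Qbar ≃ₐ[K] Qbar}
    (h : ∀ c ∈ rts P, σ c = c) : actF e σ = 1 := by
  apply Equiv.ext
  intro x
  rw [actF_apply, ← e.eq_symm_apply, Perm.one_apply, ← Subtype.val_inj, act_apply]
  exact h _ (e.symm x).2

theorem actF_swap {P : (𝓞 K)[X]} {k : ℕ} (e : rts P ≃ Fin k) {σ : Qbar ≃ₐ[K] Qbar} {a b : Qbar}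
    (ha : a ∈ rts P) (hb : b ∈ rts P) (hab : a ≠ b) (h1 : σ a = b) (h2 : σ b = a)
    (h : ∀ c ∈ rts P, c ≠ a → c ≠ b → σ c = c) :
    e ⟨a, ha⟩ ≠ e ⟨b, hb⟩ ∧ actF e σ = swap (e ⟨a, ha⟩) (e ⟨b, hb⟩) := by
  constructor
  · intro h3
    exact hab (congrArg Subtype.val (e.injective h3))
  · apply Equiv.ext
    intro x
    obtain ⟨⟨c, hc⟩, rfl⟩ := e.surjective x
    rw [actF_apply, e.symm_apply_apply]
    have h4 : act P σ ⟨c, hc⟩ = ⟨σ c, rts_map hc σ⟩ := rfl
    rw [h4]
    by_cases h5 : c = a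
    · subst h5
      rw [swap_apply_left]
      congr 1
      exact Subtype.ext h1
    · by_cases h6 : c = b
      · subst h6
        rw [swap_apply_right]
        congr 1
        exact Subtype.ext h2
      · rw [swap_apply_of_ne_of_ne]
        · congr 1
          exact Subtype.ext (h c hc h5 h6)
        · intro h7
          exact h5 (congrArg Subtype.val (e.injective h7))
        · intro h7
          exact h6 (congrArg Subtype.val (e.injective h7))

end Pool.Agent.TD
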