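import Pool.Agent.Lib_helper11.TD.Defs
import Pool.Agent.Lib_helper61.TB.Det
import Pool.Agent.Lib_helper61.TB.NP
import Pool.Agent.Lib_helper61.TT.PL
import Pool.Agent.Lib_helper61.TT.RM

/-!
# Characteristic polynomials of Frobenius elements at two places (MP_97f789_ag, Theorem D)
-/

set_option autoImplicit false

namespace Pool.Agent.TD

open NumberField Polynomial Pool.Agent.TT

/-- Finite fields for the powers of a Frobenius element of degree one. -/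
theorem td_field {K : Type} [Field K] [NumberField K] [Algebra K Qbar] {q : ℕ} (hq : q.Prime)
    {Q : Ideal (𝓞 Qbar)} (hQ : Q.IsPrime) (hqQ : (q : 𝓞 Qbar) ∈ Q) {σ : Qbar ≃ₐ[K] Qbar}
    (hσ : ∀ x y : 𝓞 Qbar, (y : Qbar) = σ x → y - x ^ q ∈ Q) (r : ℕ) (hr : 1 ≤ r) :
    ∃ (F : Type) (_ : Field F) (_ : Fintype F) (φ : 𝓞 K →+* F), Fintype.card F = q ^ r ∧
      (∀ x : 𝓞 K, φ x = 0 ↔ algebraMap (𝓞 K) (𝓞 Qbar) x ∈ Q) ∧
      ∀ x y : 𝓞 Qbar, (y : Qbar) = (σ ^ r) x → y - x ^ Fintype.card F ∈ Q := by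
  classical
  have hqF : Fact q.Prime := ⟨hq⟩
  have hchar : CharP (𝓞 Qbar ⧸ Q) q := Pool.Agent.DS.frx_charP hq Q hqQ
  let f : 𝓞 K →+* (𝓞 Qbar ⧸ Q) := (Ideal.Quotient.mk Q).comp (algebraMap (𝓞 K) (𝓞 Qbar))
  have hf : ∀ x, f x ^ q = f x := by
    intro x
    have h1 := hσ (algebraMap (𝓞 K) (𝓞 Qbar) x) (algebraMap (𝓞 K) (𝓞 Qbar) x) (by
      have h2 : ((algebraMap (𝓞 K) (𝓞 Qbar) x : 𝓞 Qbar) : Qbar) = algebraMap K Qbar (x : K) := rfl
      rw [h2, AlgEquiv.commutes])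
    rw [← Ideal.Quotient.eq_zero_iff_mem, map_sub, map_pow, sub_eq_zero] at h1
    exact h1.symm
  obtain ⟨φp, hφp⟩ := rm_exists f hf
  have hcastinj : Function.Injective (ZMod.castHom (dvd_refl q) (𝓞 Qbar ⧸ Q)) :=
    ZMod.castHom_injective _
  have hφker : ∀ x : 𝓞 K, φp x = 0 ↔ algebraMap (𝓞 K) (𝓞 Qbar) x ∈ Q := by
    intro x
    rw [← Ideal.Quotient.eq_zero_iff_mem]
    change φp x = 0 ↔ f x = 0
    rw [← hφp x, map_eq_zero_iff _ hcastinj]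
  let iF : Fintype (GaloisField q r) := Fintype.ofFinite _
  have hcardF : Fintype.card (GaloisField q r) = q ^ r := by
    rw [← Nat.card_eq_fintype_card]
    exact GaloisField.card q r (by omega)
  refine ⟨GaloisField q r, inferInstance, iF,
    (algebraMap (ZMod q) (GaloisField q r)).comp φp, hcardF, ?_, ?_⟩
  · intro x
    rw [← hφker]
    exact map_eq_zero_iff _ (algebraMap (ZMod q) (GaloisField q r)).injective
  · intro x y hxy
    rw [hcardF]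
    exact pl_frob_pow hσ r x y hxy

theorem td_compat {K : Type} [Field K] [NumberField K] [Algebra K Qbar] {n : ℕ} (A B : (𝓞 K)[X])
    {p : ℕ} [Fact p.Prime] {d : ℕ} (ρ : (Qbar ≃ₐ[K] Qbar) →* Matrix (Fin d) (Fin d) ℚ_[p])
    (hρ : HasTraces (fun σ => (ρ σ).trace) n A B) {ℓ : ℕ} [Fact ℓ.Prime] {V : Type}
    [AddCommGroup V] [Module (PadicAlgCl ℓ) V] [FiniteDimensional (PadicAlgCl ℓ) V]
    (π : Representation (PadicAlgCl ℓ) (Qbar ≃ₐ[K] Qbar) V)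
    (hπ : HasTraces (fun σ => LinearMap.trace (PadicAlgCl ℓ) V (π σ)) n A B) :
    Pool.Agent.TB.Compatible (algebraMap ℚ ℂ_[p]) (algebraMap ℚ (PadicAlgCl ℓ))
      (fun _ : Fin 1 => d)
      (fun _ => ((algebraMap ℚ_[p] ℂ_[p]).mapMatrix.toMonoidHom).comp ρ) π := by
  classical
  obtain ⟨C₁, h₁⟩ := hρ
  obtain ⟨C₂, h₂⟩ := hπ
  refine ⟨C₁ ∪ C₂, ?_⟩
  intro q hq hqC Q hQ hqQ σ hσ
  rw [Finset.mem_union, not_or] at hqC
  choose F iF jF φ hcard hker hfrob using td_field hq hQ hqQ hσ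
  have hq0 : (q : ℚ) ≠ 0 := by exact_mod_cast hq.ne_zero
  let s : ℕ → ℤ := fun r => if h : 1 ≤ r then
    @charSum K _ (F r h) (iF r h) (jF r h) n A B (φ r h) else 0
  let t : ℕ → ℚ := fun r => (s r : ℚ) / (q : ℚ) ^ r
  have key₁ : ∀ r, 1 ≤ r → (q : ℚ_[p]) ^ r * (ρ (σ ^ r)⁻¹).trace = (s r : ℚ_[p]) := by
    intro r hr
    have h3 := @h₁ q hq hqC.1 Q hQ hqQ (F r hr) (iF r hr) (jF r hr) (φ r hr) (hker r hr) (σ ^ r)
      (hfrob r hr)
    rw [hcard r hr, Nat.cast_pow] at h3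
    rw [h3]
    simp only [s, dif_pos hr]
  have key₂ : ∀ r, 1 ≤ r → (q : PadicAlgCl ℓ) ^ r *
      LinearMap.trace (PadicAlgCl ℓ) V (π (σ ^ r)⁻¹) = (s r : PadicAlgCl ℓ) := by
    intro r hr
    have h3 := @h₂ q hq hqC.2 Q hQ hqQ (F r hr) (iF r hr) (jF r hr) (φ r hr) (hker r hr) (σ ^ r)
      (hfrob r hr)
    rw [hcard r hr, Nat.cast_pow] at h3
    rw [h3]
    simp only [s, dif_pos hr]
  set ρC : (Qbar ≃ₐ[K] Qbar) →* Matrix (Fin d) (Fin d) ℂ_[p] :=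
    ((algebraMap ℚ_[p] ℂ_[p]).mapMatrix.toMonoidHom).comp ρ with hρC
  have hC : ∀ g, ρC g = (ρ g).map (algebraMap ℚ_[p] ℂ_[p]) := fun g => rfl
  have hinj₁ : Function.Injective (Matrix.toLin' (ρC σ⁻¹)) := by
    have h3 : Function.LeftInverse (Matrix.toLin' (ρC σ)) (Matrix.toLin' (ρC σ⁻¹)) := by
      intro x
      rw [← Matrix.toLin'_mul_apply, ← map_mul, mul_inv_cancel, map_one, Matrix.toLin'_one,
        LinearMap.id_apply]
    exact h3.injective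
  have hinj₂ : Function.Injective (π σ⁻¹) := by
    have h3 : Function.LeftInverse (π σ) (π σ⁻¹) := by
      intro x
      rw [← Module.End.mul_apply, ← map_mul, mul_inv_cancel, map_one, Module.End.one_apply]
    exact h3.injective
  obtain ⟨f, hf1, hf2⟩ := Pool.Agent.TB.np_charpoly (algebraMap ℚ ℂ_[p])
    (algebraMap ℚ (PadicAlgCl ℓ)) (Matrix.toLin' (ρC σ⁻¹)) (π σ⁻¹) hinj₁ hinj₂ t
    (by
      intro r hr
      have h3 : (Matrix.toLin' (ρC σ⁻¹)) ^ r = Matrix.toLin' (ρC (σ ^ r)⁻¹) := by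
        rw [← inv_pow, map_pow]
        exact (map_pow Matrix.toLinAlgEquiv' (ρC σ⁻¹) r).symm
      rw [h3, Matrix.trace_toLin'_eq, hC]
      have h4 := congrArg (algebraMap ℚ_[p] ℂ_[p]) (key₁ r hr)
      rw [map_mul, map_pow, map_natCast, map_intCast] at h4
      have h5 : ((ρ (σ ^ r)⁻¹).map (algebraMap ℚ_[p] ℂ_[p])).trace =
          algebraMap ℚ_[p] ℂ_[p] (ρ (σ ^ r)⁻¹).trace := by
        rw [Matrix.trace, Matrix.trace, map_sum]
        rfl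
      rw [h5]
      have h6 : ((q : ℂ_[p]) ^ r) ≠ 0 := pow_ne_zero _ (by exact_mod_cast hq.ne_zero)
      change _ = algebraMap ℚ ℂ_[p] ((s r : ℚ) / (q : ℚ) ^ r)
      rw [map_div₀, map_pow, map_natCast, map_intCast, eq_div_iff h6, ← h4, mul_comm])
    (by
      intro r hr
      rw [← map_pow, inv_pow]
      have h6 : ((q : PadicAlgCl ℓ) ^ r) ≠ 0 := pow_ne_zero _ (by exact_mod_cast hq.ne_zero)
      change _ = algebraMap ℚ (PadicAlgCl ℓ) ((s r : ℚ) / (q : ℚ) ^ r)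
      rw [map_div₀, map_pow, map_natCast, map_intCast, eq_div_iff h6, ← key₂ r hr, mul_comm])
  refine ⟨f, ?_, hf2⟩
  rw [Fin.prod_univ_one, ← hf1, Matrix.charpoly_toLin']

end Pool.Agent.TD
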