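import Pool.Agent.Lib_helper11.TD.Two
import Pool.Agent.Lib_helper11.TD.Act
import Pool.Agent.Lib_helper11.TD.Compat
import Pool.Agent.Lib_helper47.TD.TD3

/-!
# No Tate classes on elliptic surfaces with a section of order two: the main theorem
(MP_97f789_ag, Theorem D)
-/

set_option autoImplicit false

namespace Pool.Agent.TD

open NumberField Polynomial Equiv Pool.Agent.TT

theorem mn_galois {K : Type} [Field K] [NumberField K] [Algebra K Qbar] : IsGalois K Qbar := by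
  have hacl : IsAlgClosure ℚ Qbar := Pool.Agent.DS.frx_ac
  have hN : Normal ℚ Qbar := IsAlgClosure.normal ℚ Qbar
  have hG : IsGalois ℚ Qbar := { }
  have : IsScalarTower ℚ K Qbar := inferInstance
  exact IsGalois.tower_top_of_isGalois ℚ K Qbar

theorem mn_finite {K : Type} [Field K] [NumberField K] [Algebra K Qbar]
    (H : Subgroup (Qbar ≃ₐ[K] Qbar)) (hH : IsOpen (H : Set (Qbar ≃ₐ[K] Qbar))) :
    H.FiniteIndex := by
  have := mn_galois (K := K)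
  have h1 : Finite ((Qbar ≃ₐ[K] Qbar) ⧸ H) := Subgroup.quotient_finite_of_isOpen H hH
  exact Subgroup.finiteIndex_of_finite_quotient

/-- The bilinear form with the matrix `J`. -/
theorem mn_form {m : ℕ} {k : Type} [Field k] (J : Matrix (Fin m) (Fin m) k)
    (hJ : J.transpose = J) (hJ0 : J.det ≠ 0) :
    (∀ x y, Matrix.toBilin' J x y = Matrix.toBilin' J y x) ∧
      ∀ x, (∀ y, Matrix.toBilin' J x y = 0) → x = 0 := by
  constructor
  · intro x y
    rw [Matrix.toBilin'_apply', Matrix.toBilin'_apply', Matrix.dotProduct_mulVec,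
      ← Matrix.mulVec_transpose, hJ, dotProduct_comm]
  · intro x h
    have h1 : Matrix.vecMul x J = 0 := by
      apply dotProduct_eq
      intro y
      rw [← Matrix.dotProduct_mulVec, zero_dotProduct]
      have := h y
      rwa [Matrix.toBilin'_apply'] at this
    by_contra hx
    exact hJ0 (Matrix.exists_vecMul_eq_zero_iff.mp ⟨x, hx, h1⟩)

theorem main {K : Type} [Field K] [NumberField K] [Algebra K Qbar] {n : ℕ} (hn : 2 ≤ n)
    (A B : (𝓞 K)[X]) (hA : A.natDegree ≤ 2 * n) (hB : B.natDegree = 4 * n)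
    (hD : (A ^ 2 - 4 * B).natDegree = 4 * n)
    (hBs : (B.map (algebraMap (𝓞 K) K)).Separable)
    (hDs : ((A ^ 2 - 4 * B).map (algebraMap (𝓞 K) K)).Separable)
    (hB2 : TwoTransitive B) (hD2 : TwoTransitive (A ^ 2 - 4 * B))
    (ρ : (Qbar ≃ₐ[K] Qbar) →* Matrix (Fin (8 * n - 4)) (Fin (8 * n - 4)) ℚ_[2])
    (hρ : Continuous ρ) (hρt : HasTraces (fun σ => (ρ σ).trace) n A B)
    (J : Matrix (Fin (8 * n - 4)) (Fin (8 * n - 4)) ℚ_[2]) (hJ : J.transpose = J)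
    (hJ0 : J.det ≠ 0) (hJρ : ∀ σ, (ρ σ).transpose * J * ρ σ = J)
    (hr₁ : HasReflection ρ B (A ^ 2 - 4 * B)) (hr₂ : HasReflection ρ (A ^ 2 - 4 * B) B)
    {ℓ : ℕ} [Fact ℓ.Prime] {V : Type} [AddCommGroup V] [Module (PadicAlgCl ℓ) V]
    [FiniteDimensional (PadicAlgCl ℓ) V] (π : Representation (PadicAlgCl ℓ) (Qbar ≃ₐ[K] Qbar) V)
    (hπ : HasTraces (fun σ => LinearMap.trace (PadicAlgCl ℓ) V (π σ)) n A B)
    (H : Subgroup (Qbar ≃ₐ[K] Qbar)) (hH : IsOpen (H : Set (Qbar ≃ₐ[K] Qbar)))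
    (W₁ W₂ : Submodule (PadicAlgCl ℓ) V) (hW : W₁ ≤ W₂)
    (hT : ∀ σ ∈ H, ∀ x ∈ W₂, π σ x - x ∈ W₁) : W₁ = W₂ := by
  by_contra hne
  have hfin := mn_finite H hH
  -- the `2`-adic representation on column vectors
  set ρ' : (Qbar ≃ₐ[K] Qbar) →* Module.End ℚ_[2] (Fin (8 * n - 4) → ℚ_[2]) :=
    ((Matrix.toLinAlgEquiv' : Matrix (Fin (8 * n - 4)) (Fin (8 * n - 4)) ℚ_[2] ≃ₐ[ℚ_[2]]
      Module.End ℚ_[2] (Fin (8 * n - 4) → ℚ_[2])) : _ →* _).comp ρ with hρ'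
  have hap : ∀ g x, ρ' g x = (ρ g).mulVec x := fun g x => rfl
  obtain ⟨hs, hnd⟩ := mn_form J hJ hJ0
  have hb : ∀ g x y, Matrix.toBilin' J (ρ' g x) (ρ' g y) = Matrix.toBilin' J x y := by
    intro g x y
    rw [Matrix.toBilin'_apply', Matrix.toBilin'_apply', hap, hap, Matrix.mulVec_mulVec,
      ← Matrix.vecMul_transpose, ← Matrix.dotProduct_mulVec, Matrix.mulVec_mulVec,
      ← Matrix.mul_assoc, hJρ]
  obtain ⟨eB⟩ := rts_card (k := 4 * n) (by omega) hB hBs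
  obtain ⟨eD⟩ := rts_card (k := 4 * n) (by omega) hD hDs
  have htr : ∀ g, ‖LinearMap.trace ℚ_[2] (Fin (8 * n - 4) → ℚ_[2]) (ρ' g) -
      ((fx (actF eB g) : ℚ_[2]) + fx (actF eD g) - 4)‖ < 1 := by
    intro g
    have hcont : Continuous (fun σ => (ρ σ).trace) := Continuous.matrix_trace hρ
    have h1 := td_trace (by omega) A B hA hB hD hBs hDs _ hcont hρt g
    have h2 : LinearMap.trace ℚ_[2] (Fin (8 * n - 4) → ℚ_[2]) (ρ' g) = (ρ g).trace :=
      Matrix.trace_toLin'_eq _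
    rw [h2, actF_fx, actF_fx]
    have h3 : (ρ g).trace - ((Nat.card {β : rts B // g β = β} : ℚ_[2]) +
        (Nat.card {β : rts (A ^ 2 - 4 * B) // g β = β} : ℚ_[2]) - 4) =
        ((ρ g).trace - ((Nat.card {β : rts B // g β = β} : ℚ_[2]) +
        (Nat.card {β : rts (A ^ 2 - 4 * B) // g β = β} : ℚ_[2]))) + 4 := by ring
    rw [h3]
    refine lt_of_le_of_lt (IsUltrametricDist.norm_add_le_max _ _) (max_lt h1 ?_)
    have h4 : (4 : ℚ_[2]) = 2 * 2 := by norm_num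
    have h5 : ‖(2 : ℚ_[2])‖ < 1 := by
      exact_mod_cast Padic.norm_p_lt_one (p := 2)
    rw [h4, norm_mul]
    nlinarith [norm_nonneg (2 : ℚ_[2])]
  have hrank : ∀ g, (ρ g - 1).rank = 1 →
      Module.finrank ℚ_[2] (LinearMap.range (ρ' g - 1)) = 1 := by
    intro g h
    have h1 : ρ' g - 1 = (ρ g - 1).mulVecLin := by
      apply LinearMap.ext
      intro x
      rw [LinearMap.sub_apply, hap, Matrix.mulVecLin_apply, Matrix.sub_mulVec, Matrix.one_mulVec]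
      rfl
    rw [h1]
    exact h
  have hsq : ∀ g, ρ g * ρ g = 1 → ρ' g * ρ' g = 1 := by
    intro g h
    apply LinearMap.ext
    intro x
    rw [Module.End.mul_apply, hap, hap, Matrix.mulVec_mulVec, h, Matrix.one_mulVec]
    rfl
  obtain ⟨g₁, hg₁, hk₁, ⟨a₁, ha₁, c₁, hc₁, hac₁, hs₁, hs₁', hf₁⟩, ho₁⟩ := hr₁
  obtain ⟨g₂, hg₂, hk₂, ⟨a₂, ha₂, c₂, hc₂, hac₂, hs₂, hs₂', hf₂⟩, ho₂⟩ := hr₂
  obtain ⟨hne₁, hsw₁⟩ := actF_swap eB ha₁ hc₁ hac₁ hs₁ hs₁' hf₁
  obtain ⟨hne₂, hsw₂⟩ := actF_swap eD ha₂ hc₂ hac₂ hs₂ hs₂' hf₂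
  obtain ⟨h, hhH, hfix⟩ := td_core ρ' (Matrix.toBilin' J) hs hnd hb (k := 4 * n) (by omega)
    ⟨2 * n, by ring⟩ ⟨2 * n, by ring⟩ (actF eB) (actF eD)
    (by rw [Module.finrank_fintype_fun_eq_card, Fintype.card_fin]; omega) htr
    (actF_trans eB hB2) (actF_trans eD hD2) (hsq g₁ hg₁) (hrank g₁ hk₁) hne₁ hsw₁
    (actF_one eD ho₁) (hsq g₂ hg₂) (hrank g₂ hk₂) hne₂ hsw₂ (actF_one eB ho₂)
    (hinf_two ρ' (Matrix.toBilin' J) hs hb (by omega) (actF eB) (actF eD)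
      (by rw [Module.finrank_fintype_fun_eq_card, Fintype.card_fin]; omega) htr) H
  have hdet := Pool.Agent.TB.tate_det (algebraMap ℚ ℂ_[2]) (algebraMap ℚ (PadicAlgCl ℓ))
    (fun _ : Fin 1 => 8 * n - 4)
    (fun _ => ((algebraMap ℚ_[2] ℂ_[2]).mapMatrix.toMonoidHom).comp ρ)
    (by
      intro _
      have h1 : Continuous (algebraMap ℚ_[2] ℂ_[2]) := continuous_algebraMap ℚ_[2] ℂ_[2]
      have h2 : Continuous (fun σ => (ρ σ).map (algebraMap ℚ_[2] ℂ_[2])) :=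
        Continuous.matrix_map hρ h1
      exact h2)
    π (td_compat A B ρ hρt π hπ) 0 H hH W₁ W₂ hW
    (by
      intro s hs x hx
      rw [pow_zero, one_smul]
      exact hT s hs x hx) hne h hhH
  rw [Fin.prod_univ_one, pow_zero, one_smul] at hdet
  have hdet2 : (1 - ρ h).det = 0 := by
    have h1 : (1 - ((algebraMap ℚ_[2] ℂ_[2]).mapMatrix.toMonoidHom).comp ρ h).det =
        algebraMap ℚ_[2] ℂ_[2] (1 - ρ h).det := by
      rw [RingHom.map_det, map_sub, map_one]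
      rfl
    rw [h1, map_eq_zero] at hdet
    exact hdet
  obtain ⟨v, hv0, hv⟩ := Matrix.exists_mulVec_eq_zero_iff.mpr hdet2
  apply hv0
  apply hfix
  rw [hap]
  rw [Matrix.sub_mulVec, Matrix.one_mulVec, sub_eq_zero] at hv
  exact hv.symm

end Pool.Agent.TD
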