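import Pool.Agent.Lib_helper11.TD.Lin

/-!
# Elements of a normal subgroup that move exactly a given subspace (MP_97f789_ag, Theorem D)
-/

set_option autoImplicit false

namespace Pool.Agent.TD

variable {k V : Type*} [Field k] [AddCommGroup V] [Module k V] {G : Type*} [Group G]

theorem good_comb (ρ : G →* Module.End k V) (b : LinearMap.BilinForm k V) (H : Subgroup G)
    (S T : Submodule k V) (hS : Good ρ b H S) (hT : Good ρ b H T) (hST : Disjoint S T) :
    Good ρ b H (S ⊔ T) := by
  obtain ⟨x, hx, hx1, hx2⟩ := hS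
  obtain ⟨y, hy, hy1, hy2⟩ := hT
  refine ⟨x * y, H.mul_mem hx hy, ?_, ?_⟩
  · intro v
    rw [map_mul, Module.End.mul_apply]
    have h1 : ρ x (ρ y v) - v = (ρ x (ρ y v) - ρ y v) + (ρ y v - v) := by abel
    rw [h1]
    exact Submodule.add_mem_sup (hx1 _) (hy1 _)
  · intro v hv s hs
    rw [map_mul, Module.End.mul_apply] at hv
    have h1 : v - ρ y v ∈ S := by
      have := hx1 (ρ y v)
      rwa [hv] at this
    have h2 : v - ρ y v ∈ T := by
      have := T.neg_mem (hy1 v)
      rwa [neg_sub] at this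
    have h3 : v - ρ y v = 0 := (Submodule.disjoint_def.mp hST) _ h1 h2
    have h4 : ρ y v = v := (sub_eq_zero.mp h3).symm
    rw [h4] at hv
    obtain ⟨a, ha, c, hc, rfl⟩ := Submodule.mem_sup.mp hs
    rw [map_add, LinearMap.add_apply, hx2 v hv a ha, hy2 v h4 c hc, add_zero]

theorem t11_refl (b : LinearMap.BilinForm k V) (v x : V) :
    refl b v x = x - (2 / b v v * b v x) • v := by
  simp [refl, smul_smul]

theorem good_pair (h2 : (2 : k) ≠ 0) (ρ : G →* Module.End k V) (b : LinearMap.BilinForm k V)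
    (hs : ∀ x y, b x y = b y x) (hb : ∀ g x y, b (ρ g x) (ρ g y) = b x y) (H : Subgroup G)
    [H.Normal] (δ : V) (h0 : b δ δ ≠ 0) (g : G) (hg : ρ g = refl b δ) (h : G) (hh : h ∈ H)
    (hli : LinearIndependent k ![δ, ρ h δ]) : Good ρ b H (Submodule.span k {δ, ρ h δ}) := by
  have hinv : ∀ (a : G) (x : V), ρ a (ρ a⁻¹ x) = x := by
    intro a x
    rw [← Module.End.mul_apply, ← map_mul, mul_inv_cancel, map_one, Module.End.one_apply]
  have hsq : ∀ x, refl b δ (refl b δ x) = x := by
    intro x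
    rw [t11_refl, t11_refl, map_sub, map_smul, smul_eq_mul, sub_sub, ← add_smul]
    have h3 : 2 / b δ δ * b δ x + 2 / b δ δ * (b δ x - 2 / b δ δ * b δ x * b δ δ) = 0 := by
      field_simp
      ring
    rw [h3, zero_smul, sub_zero]
  have hginv : ∀ x, ρ g⁻¹ x = refl b δ x := by
    intro x
    have h3 := hinv g x
    rw [hg] at h3
    rw [← hsq (ρ g⁻¹ x), h3]
  have hconj : ∀ x, ρ (h * g⁻¹ * h⁻¹) x = refl b (ρ h δ) x := by
    intro x
    rw [map_mul, map_mul, Module.End.mul_apply, Module.End.mul_apply, hginv, t11_refl, t11_refl,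
      map_sub, map_smul, hinv, hb h δ δ]
    congr 3
    rw [← hb h δ (ρ h⁻¹ x), hinv]
  have hx : ∀ v, ρ (g * (h * g⁻¹ * h⁻¹)) v = refl b δ (refl b (ρ h δ) v) := by
    intro v
    rw [map_mul, Module.End.mul_apply, hconj, hg]
  refine ⟨g * (h * g⁻¹ * h⁻¹), ?_, ?_, ?_⟩
  · have h3 : g * (h * g⁻¹ * h⁻¹) = (g * h * g⁻¹) * h⁻¹ := by group
    rw [h3]
    exact H.mul_mem (Subgroup.Normal.conj_mem inferInstance h hh g) (H.inv_mem hh)
  · intro v
    rw [hx, t11_refl, t11_refl b (ρ h δ)]
    have hδ : δ ∈ Submodule.span k {δ, ρ h δ} := Submodule.subset_span (by simp)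
    have hhδ : ρ h δ ∈ Submodule.span k {δ, ρ h δ} := Submodule.subset_span (by simp)
    have h3 : ∀ (a c : k), v - a • ρ h δ - c • δ - v = -(a • ρ h δ) - c • δ := by
      intro a c
      abel
    rw [h3]
    exact Submodule.sub_mem _ (Submodule.neg_mem _ (Submodule.smul_mem _ _ hhδ))
      (Submodule.smul_mem _ _ hδ)
  · intro v hv s hsS
    rw [hx] at hv
    have h3 : refl b (ρ h δ) v = refl b δ v := by
      rw [← hsq (refl b (ρ h δ) v), hv]
    rw [t11_refl, t11_refl] at h3
    have h4 : (2 / b δ δ * b δ v) • δ + (-(2 / b (ρ h δ) (ρ h δ) * b (ρ h δ) v)) • ρ h δ = 0 := by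
      have h5 : (2 / b δ δ * b δ v) • δ - (2 / b (ρ h δ) (ρ h δ) * b (ρ h δ) v) • ρ h δ = 0 := by
        have h6 := congrArg (fun y => v - y) h3
        simp only [sub_sub_cancel] at h6
        rw [← h6, sub_self]
      rw [neg_smul, ← sub_eq_add_neg]
      exact h5
    obtain ⟨h5, h6⟩ := LinearIndependent.pair_iff.mp hli _ _ h4
    have h7 : b δ v = 0 := by
      rcases mul_eq_zero.mp h5 with h8 | h8
      · exact absurd h8 (div_ne_zero h2 h0)
      · exact h8
    have h8 : b (ρ h δ) v = 0 := by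
      rw [neg_eq_zero] at h6
      rcases mul_eq_zero.mp h6 with h9 | h9
      · rw [hb] at h9
        exact absurd h9 (div_ne_zero h2 h0)
      · exact h9
    induction hsS using Submodule.span_induction with
    | mem x hx =>
      rcases hx with rfl | rfl
      · exact h7
      · exact h8
    | zero => rw [map_zero, LinearMap.zero_apply]
    | add x y _ _ h1 h2 => rw [map_add, LinearMap.add_apply, h1, h2, add_zero]
    | smul a x _ h => rw [map_smul, LinearMap.smul_apply, h, smul_zero]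

end Pool.Agent.TD
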