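import Pool.Agent.Lib_helper11.TD.Lin

/-!
# The trace of a product of two reflections (MP_97f789_ag, Theorem D)
-/

set_option autoImplicit false
namespace Pool.Agent.TD
variable {k V : Type*} [Field k] [AddCommGroup V] [Module k V]

theorem td_refl_trace [FiniteDimensional k V] (b : LinearMap.BilinForm k V)
    (hs : ∀ x y, b x y = b y x) (v w : V) (hv : b v v ≠ 0) (hw : b w w ≠ 0) :
    LinearMap.trace k V (refl b v * refl b w) =
      (Module.finrank k V : k) - 4 + 4 * b v w ^ 2 / (b v v * b w w) := by
  have h1 : refl b v * refl b w = 1 - (2 / b v v) • (b v).smulRight v -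
      (2 / b w w) • (b w).smulRight w +
      (2 / b v v * (2 / b w w) * b v w) • (b w).smulRight v := by
    apply LinearMap.ext
    intro x
    simp only [refl, Module.End.mul_apply, LinearMap.sub_apply, LinearMap.add_apply,
      LinearMap.id_apply, LinearMap.smul_apply, LinearMap.smulRight_apply, map_sub, map_smul,
      smul_sub, sub_smul, smul_smul, smul_eq_mul, Module.End.one_apply]
    match_scalars <;> ring
  rw [h1, map_add, map_sub, map_sub, map_smul, map_smul, map_smul, LinearMap.trace_one,
    LinearMap.trace_smulRight, LinearMap.trace_smulRight, LinearMap.trace_smulRight, hs w v]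
  simp only [smul_eq_mul]
  field_simp
  ring
end Pool.Agent.TD
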