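import Pool.Agent.Lib_helper62.TD.TD4
import Pool.Agent.Lib_helper11.TD.TD5
import Pool.Agent.Lib_helper66.TD.TD6
import Pool.Agent.Lib_helper47.TD.TD7
import Pool.Agent.Lib_helper50.TD.TD8
import Pool.Agent.Lib_helper18.TD.TD9
import Pool.Agent.Lib_helper92.TD.TD10
import Pool.Agent.Lib_helper11.TD.TD11
import Pool.Agent.Lib_helper66.TD.TD12

/-!
# The linear algebra blocks (MP_97f789_ag, Theorem D)
-/
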