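import Pool.Agent.Lib_helper11.TD.Sys

/-!
# Elements without fixed vectors in subgroups of finite index (MP_97f789_ag, Theorem D)
-/

set_option autoImplicit false

namespace Pool.Agent.TD

open Equiv

variable {p : ℕ} [hp : Fact p.Prime] {V : Type*} [AddCommGroup V] [Module ℚ_[p] V]
  [FiniteDimensional ℚ_[p] V] {G : Type*} [Group G]

/-- The hypotheses on one of the two systems of roots. -/
structure Side (ρ : G →* Module.End ℚ_[p] V) (b : LinearMap.BilinForm ℚ_[p] V) (k : ℕ)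
    (π₁ π₂ : G →* Perm (Fin k)) (N : ℚ_[p]) (Δ : Set V) : Prop where
  sys : Sys b k N Δ (fun a c x => ∃ g, ρ g = refl b x ∧ π₁ g = swap a c ∧ π₂ g = 1)
  stab : ∀ g, ∀ x ∈ Δ, ρ g x ∈ Δ
  refl : ∀ x ∈ Δ, ∃ g, ρ g = refl b x

theorem side_of (ρ : G →* Module.End ℚ_[p] V) (b : LinearMap.BilinForm ℚ_[p] V)
    (hs : ∀ x y, b x y = b y x) (hn : ∀ x, (∀ y, b x y = 0) → x = 0)
    (hb : ∀ g x y, b (ρ g x) (ρ g y) = b x y) {k : ℕ}
    (π₁ π₂ : G →* Perm (Fin k)) (hdim : Module.finrank ℚ_[p] V + 4 = 2 * k)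
    (htr : ∀ g, ‖LinearMap.trace ℚ_[p] V (ρ g) - ((fx (π₁ g) : ℚ_[p]) + fx (π₂ g) - 4)‖ < 1)
    (ht : ∀ a c d e : Fin k, a ≠ c → d ≠ e → ∃ g, π₁ g a = d ∧ π₁ g c = e)
    {g₀ : G} (hg : ρ g₀ * ρ g₀ = 1) (hr : Module.finrank ℚ_[p] (LinearMap.range (ρ g₀ - 1)) = 1)
    {a₀ c₀ : Fin k} (hac : a₀ ≠ c₀) (hπ : π₁ g₀ = swap a₀ c₀) (hπ₂ : π₂ g₀ = 1) :
    ∃ N Δ, Side ρ b k π₁ π₂ N Δ := by
  obtain ⟨v₀, hv, hgv⟩ := td_refl two_ne_zero b hs hn (ρ g₀) hg hr (hb g₀)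
  have hS := sys_of ρ b hs hb π₁ π₂ hdim htr ht hv hgv hac hπ hπ₂
  refine ⟨b v₀ v₀, {x | ∃ g, x = ρ g v₀}, hS, ?_, ?_⟩
  · rintro g x ⟨g', rfl⟩
    exact ⟨g * g', by rw [map_mul, Module.End.mul_apply]⟩
  · intro x hx
    obtain ⟨a, c, -, g, hg, -⟩ := hS.ov x hx
    exact ⟨g, hg⟩

theorem cross (ρ : G →* Module.End ℚ_[p] V) (b : LinearMap.BilinForm ℚ_[p] V)
    (hs : ∀ x y, b x y = b y x) {k : ℕ} (π₁ π₂ : G →* Perm (Fin k))
    (hdim : Module.finrank ℚ_[p] V + 4 = 2 * k)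
    (htr : ∀ g, ‖LinearMap.trace ℚ_[p] V (ρ g) - ((fx (π₁ g) : ℚ_[p]) + fx (π₂ g) - 4)‖ < 1)
    {N M : ℚ_[p]} {Δ E : Set V} (S : Side ρ b k π₁ π₂ N Δ) (T : Side ρ b k π₂ π₁ M E) {x y : V}
    (hx : x ∈ Δ) (hy : y ∈ E) : ‖4 * b x y ^ 2 / (N * M)‖ < 1 := by
  obtain ⟨a, c, hac, g, h1, h2, h3⟩ := S.sys.ov x hx
  obtain ⟨d, e, hde, g', h1', h2', h3'⟩ := T.sys.ov y hy
  have h4 := val ρ b hs π₁ π₂ hdim htr (by rw [S.sys.norm x hx]; exact S.sys.ne)
    (by rw [T.sys.norm y hy]; exact T.sys.ne) h1 h1'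
  have h5 : (fx (π₁ (g * g')) : ℚ_[p]) + 2 = k := by
    rw [map_mul, h2, h3', mul_one]
    exact_mod_cast fx_swap hac
  have h6 : (fx (π₂ (g * g')) : ℚ_[p]) + 2 = k := by
    rw [map_mul, h3, h2', one_mul]
    exact_mod_cast fx_swap hde
  rw [S.sys.norm x hx, T.sys.norm y hy] at h4
  convert h4 using 2
  linear_combination h5 + h6

omit [FiniteDimensional ℚ_[p] V] in
/-- The span of one system is stable under the group. -/
theorem Side.span {ρ : G →* Module.End ℚ_[p] V} {b : LinearMap.BilinForm ℚ_[p] V} {k : ℕ}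
    {π₁ π₂ : G →* Perm (Fin k)} {N : ℚ_[p]} {Δ : Set V} (S : Side ρ b k π₁ π₂ N Δ) (g : G)
    {x : V} (hx : x ∈ Submodule.span ℚ_[p] Δ) : ρ g x ∈ Submodule.span ℚ_[p] Δ := by
  induction hx using Submodule.span_induction with
  | mem x h => exact Submodule.subset_span (S.stab g x h)
  | zero => rw [map_zero]; exact Submodule.zero_mem _
  | add x y _ _ h1 h2 => rw [map_add]; exact Submodule.add_mem _ h1 h2
  | smul a x _ h => rw [map_smul]; exact Submodule.smul_mem _ _ h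

omit [FiniteDimensional ℚ_[p] V] in
/-- Vectors orthogonal to the generators are orthogonal to the span. -/
theorem orth_span {b : LinearMap.BilinForm ℚ_[p] V} {Δ : Set V} {u : V}
    (h : ∀ x ∈ Δ, b u x = 0) {x : V} (hx : x ∈ Submodule.span ℚ_[p] Δ) : b u x = 0 := by
  induction hx using Submodule.span_induction with
  | mem x hx => exact h x hx
  | zero => rw [map_zero]
  | add x y _ _ h1 h2 => rw [map_add, h1, h2, add_zero]
  | smul a x _ h => rw [map_smul, h, smul_zero]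

/-- The two systems span the space, and each has rank at least `k - 2`. -/
theorem spans (ρ : G →* Module.End ℚ_[p] V) (b : LinearMap.BilinForm ℚ_[p] V)
    (hs : ∀ x y, b x y = b y x) {k : ℕ} (hk : 2 ≤ k) (hpk : p ∣ k) (π₁ π₂ : G →* Perm (Fin k))
    (hdim : Module.finrank ℚ_[p] V + 4 = 2 * k)
    (htr : ∀ g, ‖LinearMap.trace ℚ_[p] V (ρ g) - ((fx (π₁ g) : ℚ_[p]) + fx (π₂ g) - 4)‖ < 1)
    {N M : ℚ_[p]} {Δ E : Set V} (S : Side ρ b k π₁ π₂ N Δ) (T : Side ρ b k π₂ π₁ M E) :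
    Submodule.span ℚ_[p] Δ ⊔ Submodule.span ℚ_[p] E = ⊤ ∧
      k - 2 ≤ Module.finrank ℚ_[p] (Submodule.span ℚ_[p] Δ) ∧
      k - 2 ≤ Module.finrank ℚ_[p] (Submodule.span ℚ_[p] E) := by
  obtain ⟨v, hv, -, hv1, hv0⟩ := S.sys.path (r := k - 2) (by omega)
  obtain ⟨w, hw, -, hw1, hw0⟩ := T.sys.path (r := k - 2) (by omega)
  have hpr : ¬ p ∣ k - 2 + 1 := by
    intro h
    have h1 : k = k - 2 + 1 + 1 := by omega
    rw [h1] at hpk
    have h2 := (Nat.dvd_add_right h).mp hpk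
    exact hp.out.one_lt.ne' (Nat.dvd_one.mp h2)
  have hli := td_ind b hs hpr v w N M S.sys.ne T.sys.ne (fun i => S.sys.norm _ (hv i))
    (fun i => T.sys.norm _ (hw i)) hv1 hv0 hw1 hw0
    (fun i j => cross ρ b hs π₁ π₂ hdim htr S T (hv i) (hw j))
  have hlv : LinearIndependent ℚ_[p] v := by
    have := hli.comp Sum.inl Sum.inl_injective
    rwa [Sum.elim_comp_inl] at this
  have hlw : LinearIndependent ℚ_[p] w := by
    have := hli.comp Sum.inr Sum.inr_injective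
    rwa [Sum.elim_comp_inr] at this
  refine ⟨?_, ?_, ?_⟩
  · have h1 := finrank_span_eq_card hli
    rw [Fintype.card_sum, Fintype.card_fin] at h1
    have h2 : Submodule.span ℚ_[p] (Set.range (Sum.elim v w)) = ⊤ := by
      apply Submodule.eq_top_of_finrank_eq
      omega
    rw [eq_top_iff, ← h2, Set.Sum.elim_range, Submodule.span_union]
    apply sup_le_sup
    · rw [Submodule.span_le]
      rintro _ ⟨i, rfl⟩
      exact Submodule.subset_span (hv i)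
    · rw [Submodule.span_le]
      rintro _ ⟨i, rfl⟩
      exact Submodule.subset_span (hw i)
  · have h1 := finrank_span_eq_card hlv
    rw [Fintype.card_fin] at h1
    rw [← h1]
    apply Submodule.finrank_mono
    rw [Submodule.span_le]
    rintro _ ⟨i, rfl⟩
    exact Submodule.subset_span (hv i)
  · have h1 := finrank_span_eq_card hlw
    rw [Fintype.card_fin] at h1
    rw [← h1]
    apply Submodule.finrank_mono
    rw [Submodule.span_le]
    rintro _ ⟨i, rfl⟩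
    exact Submodule.subset_span (hw i)

/-- Powers of elements lie in a normal subgroup of finite index. -/
theorem pow_mem_of {H : Subgroup G} [H.Normal] [H.FiniteIndex] (g : G) :
    ∃ m, 0 < m ∧ g ^ m ∈ H := by
  refine ⟨H.index, Nat.pos_of_ne_zero Subgroup.FiniteIndex.index_ne_zero, ?_⟩
  exact Subgroup.pow_index_mem H g

/-- The first case: the two systems are not orthogonal. -/
theorem case_one (ρ : G →* Module.End ℚ_[p] V) (b : LinearMap.BilinForm ℚ_[p] V)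
    (hs : ∀ x y, b x y = b y x) (hn : ∀ x, (∀ y, b x y = 0) → x = 0)
    (hb : ∀ g x y, b (ρ g x) (ρ g y) = b x y) {k : ℕ} (hk : 6 ≤ k) (π₁ π₂ : G →* Perm (Fin k))
    (hdim : Module.finrank ℚ_[p] V + 4 = 2 * k) (hinf : ∃ g, ∀ M, 0 < M → ρ (g ^ M) ≠ 1)
    {N M : ℚ_[p]} {Δ E : Set V} (S : Side ρ b k π₁ π₂ N Δ) (T : Side ρ b k π₂ π₁ M E)
    (hsp : Submodule.span ℚ_[p] Δ ⊔ Submodule.span ℚ_[p] E = ⊤)
    {x₀ y₀ : V} (hx₀ : x₀ ∈ Δ) (hy₀ : y₀ ∈ E) (hxy : b x₀ y₀ ≠ 0)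
    (H : Subgroup G) [H.Normal] [H.FiniteIndex] : Good ρ b H ⊤ := by
  have htop : Submodule.span ℚ_[p] (Δ ∪ E) = ⊤ := by rw [Submodule.span_union, hsp]
  have h0 : ∀ δ ∈ Δ ∪ E, b δ δ ≠ 0 := by
    rintro δ (h | h)
    · rw [S.sys.norm δ h]; exact S.sys.ne
    · rw [T.sys.norm δ h]; exact T.sys.ne
  have hr : ∀ δ ∈ Δ ∪ E, ∃ g, ρ g = refl b δ := by
    rintro δ (h | h)
    · exact S.refl δ h
    · exact T.refl δ h
  have hG : ∀ g, ∀ δ ∈ Δ ∪ E, ρ g δ ∈ Δ ∪ E := by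
    rintro g δ (h | h)
    · exact Or.inl (S.stab g δ h)
    · exact Or.inr (T.stab g δ h)
  have hirr : ∀ U ≤ Submodule.span ℚ_[p] (Δ ∪ E), (∀ δ ∈ Δ ∪ E, δ ∈ U ∨ ∀ u ∈ U, b u δ = 0) →
      U = ⊥ ∨ U = Submodule.span ℚ_[p] (Δ ∪ E) := by
    intro U _ hU
    have hUΔ : ∀ δ ∈ Δ, δ ∈ U ∨ ∀ u ∈ U, b u δ = 0 := fun δ h => hU δ (Or.inl h)
    have hUE : ∀ δ ∈ E, δ ∈ U ∨ ∀ u ∈ U, b u δ = 0 := fun δ h => hU δ (Or.inr h)
    by_cases h1 : x₀ ∈ U
    · right
      have h2 : ∀ y ∈ Δ, y ∈ U := fun y hy => S.sys.conn (by omega) U hUΔ hx₀ hy h1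
      have h3 : y₀ ∈ U := by
        rcases hUE y₀ hy₀ with h | h
        · exact h
        · exact absurd (h x₀ h1) hxy
      have h4 : ∀ y ∈ E, y ∈ U := fun y hy => T.sys.conn (by omega) U hUE hy₀ hy h3
      rw [htop, eq_top_iff, ← htop, Submodule.span_le]
      rintro y (hy | hy)
      · exact h2 y hy
      · exact h4 y hy
    · left
      have h2 : ∀ y ∈ Δ, y ∉ U := fun y hy h => h1 (S.sys.conn (by omega) U hUΔ hy hx₀ h)
      have h3 : y₀ ∉ U := by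
        intro h
        rcases hUΔ x₀ hx₀ with h4 | h4
        · exact h1 h4
        · rw [hs] at hxy
          exact hxy (h4 y₀ h)
      have h4 : ∀ y ∈ E, y ∉ U := fun y hy h => h3 (T.sys.conn (by omega) U hUE hy hy₀ h)
      rw [eq_bot_iff]
      intro u hu
      rw [Submodule.mem_bot]
      apply hn
      intro y
      have hy : y ∈ Submodule.span ℚ_[p] (Δ ∪ E) := by rw [htop]; exact Submodule.mem_top
      apply orth_span _ hy
      intro δ hδ
      rcases hU δ hδ with h | h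
      · rcases hδ with h5 | h5
        · exact absurd h (h2 δ h5)
        · exact absurd h (h4 δ h5)
      · exact h u hu
  have hH : ∃ h ∈ H, ∃ x ∈ Submodule.span ℚ_[p] (Δ ∪ E), ρ h (ρ h x) ≠ x := by
    obtain ⟨g, hg⟩ := hinf
    obtain ⟨m, hm, hgm⟩ := pow_mem_of (H := H) g
    refine ⟨g ^ m, hgm, ?_⟩
    by_contra hcon
    push Not at hcon
    apply hg (m * 2) (by omega)
    rw [pow_mul, pow_two, map_mul]
    apply LinearMap.ext
    intro x
    rw [Module.End.mul_apply, Module.End.one_apply]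
    exact hcon x (by rw [htop]; exact Submodule.mem_top)
  have h3 : 3 ≤ Module.finrank ℚ_[p] (Submodule.span ℚ_[p] (Δ ∪ E)) := by
    rw [htop, finrank_top]
    omega
  have hW : ∀ x ∈ Submodule.span ℚ_[p] (Δ ∪ E),
      (∀ y ∈ Submodule.span ℚ_[p] (Δ ∪ E), b x y = 0) → x = 0 := by
    intro x _ h
    apply hn
    intro y
    exact h y (by rw [htop]; exact Submodule.mem_top)
  have hgood := td_greedy two_ne_zero ρ b hs hb (Δ ∪ E) h0 hr H
    (by rw [htop]; intro _ _ _ _; exact Submodule.mem_top)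
    (fun U hU hU' => td_irred two_ne_zero ρ b hs hb (Δ ∪ E) h0 hG hr hW hirr h3 H hH U hU hU')
    (by
      rw [htop, finrank_top]
      refine ⟨k - 2, ?_⟩
      omega)
  rwa [htop] at hgood

/-- The second case: one of two orthogonal systems. -/
theorem case_two (ρ : G →* Module.End ℚ_[p] V) (b : LinearMap.BilinForm ℚ_[p] V)
    (hs : ∀ x y, b x y = b y x) (hn : ∀ x, (∀ y, b x y = 0) → x = 0)
    (hb : ∀ g x y, b (ρ g x) (ρ g y) = b x y) {k : ℕ} (hk : 6 ≤ k) (hk2 : Even k)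
    (π₁ π₂ : G →* Perm (Fin k)) {N : ℚ_[p]} {Δ E : Set V} (S : Side ρ b k π₁ π₂ N Δ)
    (hsp : Submodule.span ℚ_[p] Δ ⊔ Submodule.span ℚ_[p] E = ⊤)
    (hfr : Module.finrank ℚ_[p] (Submodule.span ℚ_[p] Δ) = k - 2)
    (hort : ∀ x ∈ Submodule.span ℚ_[p] Δ, ∀ y ∈ Submodule.span ℚ_[p] E, b x y = 0)
    (H : Subgroup G) [H.Normal] [H.FiniteIndex] : Good ρ b H (Submodule.span ℚ_[p] Δ) := by
  have hdec : ∀ z : V, ∃ x ∈ Submodule.span ℚ_[p] Δ, ∃ y ∈ Submodule.span ℚ_[p] E, x + y = z := by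
    intro z
    have hz : z ∈ Submodule.span ℚ_[p] Δ ⊔ Submodule.span ℚ_[p] E := by
      rw [hsp]
      exact Submodule.mem_top
    obtain ⟨x, hx, y, hy, h⟩ := Submodule.mem_sup.mp hz
    exact ⟨x, hx, y, hy, h⟩
  have h0 : ∀ δ ∈ Δ, b δ δ ≠ 0 := by
    intro δ h
    rw [S.sys.norm δ h]
    exact S.sys.ne
  have hirr : ∀ U ≤ Submodule.span ℚ_[p] Δ, (∀ δ ∈ Δ, δ ∈ U ∨ ∀ u ∈ U, b u δ = 0) →
      U = ⊥ ∨ U = Submodule.span ℚ_[p] Δ := by
    intro U hUle hU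
    by_cases h1 : ∃ x ∈ Δ, x ∈ U
    · right
      obtain ⟨x, hx, hxU⟩ := h1
      refine le_antisymm hUle ?_
      rw [Submodule.span_le]
      intro y hy
      exact S.sys.conn (by omega) U hU hx hy hxU
    · left
      rw [eq_bot_iff]
      intro u hu
      rw [Submodule.mem_bot]
      apply hn
      intro z
      obtain ⟨x, hx, y, hy, rfl⟩ := hdec z
      rw [map_add, hort u (hUle hu) y hy, add_zero]
      apply orth_span _ hx
      intro δ hδ
      rcases hU δ hδ with h | h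
      · exact absurd ⟨δ, hδ, h⟩ h1
      · exact h u hu
  have hW : ∀ x ∈ Submodule.span ℚ_[p] Δ, (∀ y ∈ Submodule.span ℚ_[p] Δ, b x y = 0) → x = 0 := by
    intro u hu h
    apply hn
    intro z
    obtain ⟨x, hx, y, hy, rfl⟩ := hdec z
    rw [map_add, hort u hu y hy, add_zero, h x hx]
  have hH : ∃ h ∈ H, ∃ x ∈ Submodule.span ℚ_[p] Δ, ρ h (ρ h x) ≠ x := by
    by_contra hcon
    push Not at hcon
    have hkey : ∀ x ∈ Δ, ∀ y ∈ Δ, LinearIndependent ℚ_[p] ![x, y] →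
        (‖(2 * b x y / N) ^ 2 - 1‖ < 1 → (2 * b x y / N) ^ 2 = 1) ∧
          (‖2 * b x y / N‖ < 1 → b x y = 0) := by
      intro x hx y hy hli
      obtain ⟨g, hg⟩ := S.refl x hx
      obtain ⟨g', hg'⟩ := S.refl y hy
      obtain ⟨m, hm, hgm⟩ := pow_mem_of (H := H) (g * g')
      apply td_fo b hs x y N S.sys.ne (S.sys.norm x hx) (S.sys.norm y hy) hli (m * 2) (by omega)
      have hfix : ∀ z ∈ Submodule.span ℚ_[p] E, (refl b x * refl b y) z = z := by
        intro z hz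
        rw [Module.End.mul_apply, refl_apply b y z, hort y (Submodule.subset_span hy) z hz,
          mul_zero, zero_smul, sub_zero, refl_apply, hort x (Submodule.subset_span hx) z hz,
          mul_zero, zero_smul, sub_zero]
      have hfix2 : ∀ r : ℕ, ∀ z ∈ Submodule.span ℚ_[p] E, ((refl b x * refl b y) ^ r) z = z := by
        intro r
        induction r with
        | zero => intro z _; simp
        | succ r ih =>
          intro z hz
          rw [pow_succ, Module.End.mul_apply, hfix z hz, ih z hz]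
      apply LinearMap.ext
      intro z
      obtain ⟨x', hx', y', hy', rfl⟩ := hdec z
      rw [map_add, map_add, hfix2 _ y' hy', Module.End.one_apply, Module.End.one_apply]
      congr 1
      have h5 := hcon _ hgm x' hx'
      have h6 : ρ ((g * g') ^ m) = (refl b x * refl b y) ^ m := by
        rw [map_pow, map_mul, hg, hg']
      rw [h6] at h5
      rw [pow_mul, pow_two, Module.End.mul_apply]
      exact h5
    obtain ⟨v, hv, hvo, hv1, hv0⟩ := S.sys.path (r := k - 1) (by omega)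
    have hli : ∀ i j : Fin (k - 1), (i : ℕ) < j → LinearIndependent ℚ_[p] ![v i, v j] := by
      intro i j hij
      refine S.sys.indep (by omega) (hv i) (hv j) ?_ ?_ ?_ ?_ (hvo i) (hvo j) <;>
      · intro h
        rw [Fin.mk.injEq] at h
        omega
    have h1 := td_cart b hs v N S.sys.ne (fun i => S.sys.norm _ (hv i))
      (fun i j hij => (hkey _ (hv i) _ (hv j) (hli i j (by omega))).1 (hv1 i j hij))
      (fun i j hij => (hkey _ (hv i) _ (hv j) (hli i j (by omega))).2 (hv0 i j hij))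
    have h2 := finrank_span_eq_card h1
    rw [Fintype.card_fin] at h2
    have h3 : Submodule.span ℚ_[p] (Set.range v) ≤ Submodule.span ℚ_[p] Δ := by
      rw [Submodule.span_le]
      rintro _ ⟨i, rfl⟩
      exact Submodule.subset_span (hv i)
    have h4 := Submodule.finrank_mono h3
    omega
  exact td_greedy two_ne_zero ρ b hs hb Δ h0 S.refl H (fun h _ x hx => S.span h hx)
    (fun U hU hU' => td_irred two_ne_zero ρ b hs hb Δ h0 S.stab S.refl hW hirr (by omega) H hH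
      U hU hU')
    (by
      rw [hfr]
      obtain ⟨r, hr⟩ := hk2
      exact ⟨r - 1, by omega⟩)

/-- Every subgroup of finite index contains an element without nonzero fixed vectors. -/
theorem td_core (ρ : G →* Module.End ℚ_[p] V) (b : LinearMap.BilinForm ℚ_[p] V)
    (hs : ∀ x y, b x y = b y x) (hn : ∀ x, (∀ y, b x y = 0) → x = 0)
    (hb : ∀ g x y, b (ρ g x) (ρ g y) = b x y) {k : ℕ} (hk : 6 ≤ k) (hk2 : Even k) (hpk : p ∣ k)
    (π₁ π₂ : G →* Perm (Fin k)) (hdim : Module.finrank ℚ_[p] V + 4 = 2 * k)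
    (htr : ∀ g, ‖LinearMap.trace ℚ_[p] V (ρ g) - ((fx (π₁ g) : ℚ_[p]) + fx (π₂ g) - 4)‖ < 1)
    (ht₁ : ∀ a c d e : Fin k, a ≠ c → d ≠ e → ∃ g, π₁ g a = d ∧ π₁ g c = e)
    (ht₂ : ∀ a c d e : Fin k, a ≠ c → d ≠ e → ∃ g, π₂ g a = d ∧ π₂ g c = e)
    {g₁ g₂ : G} (hg₁ : ρ g₁ * ρ g₁ = 1)
    (hr₁ : Module.finrank ℚ_[p] (LinearMap.range (ρ g₁ - 1)) = 1)
    {a₁ c₁ : Fin k} (hac₁ : a₁ ≠ c₁) (hπ₁ : π₁ g₁ = swap a₁ c₁) (hπ₁' : π₂ g₁ = 1)
    (hg₂ : ρ g₂ * ρ g₂ = 1) (hr₂ : Module.finrank ℚ_[p] (LinearMap.range (ρ g₂ - 1)) = 1)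
    {a₂ c₂ : Fin k} (hac₂ : a₂ ≠ c₂) (hπ₂ : π₂ g₂ = swap a₂ c₂) (hπ₂' : π₁ g₂ = 1)
    (hinf : ∀ (N M : ℚ_[p]) (Δ E : Set V), Side ρ b k π₁ π₂ N Δ → Side ρ b k π₂ π₁ M E →
      (∃ x ∈ Δ, ∃ y ∈ E, b x y ≠ 0) → ∃ g, ∀ m, 0 < m → ρ (g ^ m) ≠ 1)
    (H : Subgroup G) [H.FiniteIndex] : ∃ h ∈ H, ∀ v, ρ h v = v → v = 0 := by
  have htr' : ∀ g, ‖LinearMap.trace ℚ_[p] V (ρ g) -
      ((fx (π₂ g) : ℚ_[p]) + fx (π₁ g) - 4)‖ < 1 := by
    intro g
    rw [add_comm (fx (π₂ g) : ℚ_[p])]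
    exact htr g
  obtain ⟨N, Δ, S⟩ := side_of ρ b hs hn hb π₁ π₂ hdim htr ht₁ hg₁ hr₁ hac₁ hπ₁ hπ₁'
  obtain ⟨M, E, T⟩ := side_of ρ b hs hn hb π₂ π₁ hdim htr' ht₂ hg₂ hr₂ hac₂ hπ₂ hπ₂'
  obtain ⟨hsp, hf1, hf2⟩ := spans ρ b hs (by omega) hpk π₁ π₂ hdim htr S T
  have hgood : Good ρ b H.normalCore ⊤ := by
    by_cases hc : ∃ x ∈ Δ, ∃ y ∈ E, b x y ≠ 0
    · have hinf' := hinf N M Δ E S T hc
      obtain ⟨x, hx, y, hy, hxy⟩ := hc
      exact case_one ρ b hs hn hb hk π₁ π₂ hdim hinf' S T hsp hx hy hxy H.normalCore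
    · push Not at hc
      have hort1 : ∀ x ∈ Δ, ∀ y ∈ Submodule.span ℚ_[p] E, b x y = 0 :=
        fun x hx y hy => orth_span (hc x hx) hy
      have hort : ∀ x ∈ Submodule.span ℚ_[p] Δ, ∀ y ∈ Submodule.span ℚ_[p] E, b x y = 0 := by
        intro x hx y hy
        rw [hs]
        apply orth_span _ hx
        intro δ hδ
        rw [hs]
        exact hort1 δ hδ y hy
      have hort' : ∀ x ∈ Submodule.span ℚ_[p] E, ∀ y ∈ Submodule.span ℚ_[p] Δ, b x y = 0 := by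
        intro x hx y hy
        rw [hs]
        exact hort y hy x hx
      have hdis : Disjoint (Submodule.span ℚ_[p] Δ) (Submodule.span ℚ_[p] E) := by
        rw [Submodule.disjoint_def]
        intro u hu hu'
        apply hn
        intro z
        have hz : z ∈ Submodule.span ℚ_[p] Δ ⊔ Submodule.span ℚ_[p] E := by
          rw [hsp]
          exact Submodule.mem_top
        obtain ⟨x, hx, y, hy, rfl⟩ := Submodule.mem_sup.mp hz
        rw [map_add, hort' u hu' x hx, hort u hu y hy, add_zero]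
      have hsum := Submodule.finrank_sup_add_finrank_inf_eq (Submodule.span ℚ_[p] Δ)
        (Submodule.span ℚ_[p] E)
      rw [hsp, hdis.eq_bot, finrank_top, finrank_bot, add_zero] at hsum
      have hg1 := case_two ρ b hs hn hb hk hk2 π₁ π₂ S hsp (by omega) hort H.normalCore
      have hg2 := case_two ρ b hs hn hb hk hk2 π₂ π₁ T (by rw [sup_comm]; exact hsp)
        (by omega) hort' H.normalCore
      have := good_comb ρ b H.normalCore _ _ hg1 hg2 hdis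
      rwa [hsp] at this
  obtain ⟨h, hh, -, h2⟩ := hgood
  refine ⟨h, H.normalCore_le hh, ?_⟩
  intro v hv
  apply hn
  intro y
  rw [hs]
  exact h2 v hv y Submodule.mem_top

end Pool.Agent.TD
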