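import Pool.Agent.Lib_helper61.TT.Defs

/-!
# Elliptic surfaces with a section of order two: definitions (MP_97f789_ag)
-/

set_option autoImplicit false

namespace Pool.Agent.TD

open NumberField Polynomial Pool.Agent.TT

open Classical in
/-- The sum of `χ(x (x ^ 2 + A(t) x + B(t)))` over all `x` in the finite field `F` and all `t` in
the projective line over `F`, where `χ` is the quadratic character and the values of `A` and `B` at
`t = ∞` are the coefficients of `t ^ (2 n)` and `t ^ (4 n)`. -/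
noncomputable def charSum {K : Type} [Field K] {F : Type} [Field F] [Fintype F] (n : ℕ)
    (A B : (𝓞 K)[X]) (φ : 𝓞 K →+* F) : ℤ :=
  (∑ t : F, ∑ x : F, quadraticChar F (x * (x ^ 2 + A.eval₂ φ t * x + B.eval₂ φ t))) +
    ∑ x : F, quadraticChar F (x * (x ^ 2 + φ (A.coeff (2 * n)) * x + φ (B.coeff (4 * n))))

/-- The function `τ` on the absolute Galois group `Gal(Qbar/K)` has the values of the trace of
Frobenius elements on `H¹(ℙ¹, j_* R¹ f_* ℚ_ℓ)(1)` for the elliptic surface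
`y ^ 2 = x (x ^ 2 + A(t) x + B(t))`: for all prime ideals `𝔓` of the ring of algebraic integers
above almost all primes `p`, all finite fields `F` that contain the residue field of `K` at `𝔓` and
all elements `σ` of the Galois group that induce `x ↦ x ^ |F|` modulo `𝔓`, the value at `σ⁻¹` is the
character sum divided by `|F|`. -/
def HasTraces {K : Type} [Field K] [NumberField K] [Algebra K Qbar] {k : Type} [Field k]
    (τ : (Qbar ≃ₐ[K] Qbar) → k) (n : ℕ) (A B : (𝓞 K)[X]) : Prop :=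
  ∃ C : Finset ℕ, ∀ p : ℕ, p.Prime → p ∉ C → ∀ 𝔓 : Ideal (𝓞 Qbar), 𝔓.IsPrime →
    (p : 𝓞 Qbar) ∈ 𝔓 → ∀ (F : Type) [Field F] [Fintype F] (φ : 𝓞 K →+* F),
      (∀ x : 𝓞 K, φ x = 0 ↔ algebraMap (𝓞 K) (𝓞 Qbar) x ∈ 𝔓) →
      ∀ σ : Qbar ≃ₐ[K] Qbar, (∀ x y : 𝓞 Qbar, (y : Qbar) = σ x → y - x ^ Fintype.card F ∈ 𝔓) →
        (Fintype.card F : k) * τ σ⁻¹ = (charSum n A B φ : k)

/-- The set of the roots of `P` in `Qbar`. -/
def rts {K : Type} [Field K] [Algebra K Qbar] (P : (𝓞 K)[X]) : Set Qbar :=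
  {β | P.eval₂ ((algebraMap K Qbar).comp (algebraMap (𝓞 K) K)) β = 0}

/-- The Galois group of `K` acts doubly transitively on the roots of `P`. -/
def TwoTransitive {K : Type} [Field K] [Algebra K Qbar] (P : (𝓞 K)[X]) : Prop :=
  ∀ a ∈ rts P, ∀ b ∈ rts P, ∀ c ∈ rts P, ∀ d ∈ rts P, a ≠ b → c ≠ d →
    ∃ σ : Qbar ≃ₐ[K] Qbar, σ a = c ∧ σ b = d

/-- There is an element of the Galois group of `K` that acts as a reflection in the representation
`ρ`, exchanges two roots of `P`, and fixes all other roots of `P` and all roots of `Q`. -/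
def HasReflection {K : Type} [Field K] [Algebra K Qbar] {k : Type} [Field k] {m : ℕ}
    (ρ : (Qbar ≃ₐ[K] Qbar) →* Matrix (Fin m) (Fin m) k) (P Q : (𝓞 K)[X]) : Prop :=
  ∃ σ : Qbar ≃ₐ[K] Qbar, ρ σ * ρ σ = 1 ∧ (ρ σ - 1).rank = 1 ∧
    (∃ a ∈ rts P, ∃ b ∈ rts P, a ≠ b ∧ σ a = b ∧ σ b = a ∧ ∀ c ∈ rts P, c ≠ a → c ≠ b → σ c = c) ∧
      ∀ c ∈ rts Q, σ c = c

end Pool.Agent.TD
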