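import Mathlib

/-!
# Reflections: definitions (MP_97f789_ag, Theorem D)
-/

set_option autoImplicit false

namespace Pool.Agent.TD

/-- The reflection in the vector `v`. -/
noncomputable def refl {k V : Type*} [Field k] [AddCommGroup V] [Module k V]
    (b : LinearMap.BilinForm k V) (v : V) : Module.End k V :=
  LinearMap.id - (2 / b v v) • (b v).smulRight v

/-- Some element `x` of `H` moves all vectors by elements of `S`, and its fixed vectors are
orthogonal to `S`. -/
def Good {k V G : Type*} [Field k] [AddCommGroup V] [Module k V] [Group G]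
    (ρ : G →* Module.End k V) (b : LinearMap.BilinForm k V) (H : Subgroup G)
    (S : Submodule k V) : Prop :=
  ∃ x ∈ H, (∀ v, ρ x v - v ∈ S) ∧ ∀ v, ρ x v = v → ∀ s ∈ S, b s v = 0

end Pool.Agent.TD
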