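import Pool.Agent.Lib_helper11.TD.Side

/-!
# Systems of roots over the transpositions (MP_97f789_ag, Theorem D)
-/

set_option autoImplicit false

namespace Pool.Agent.TD

open Equiv

variable {p : ℕ} [hp : Fact p.Prime] {V : Type*} [AddCommGroup V] [Module ℚ_[p] V]

/-- A system of vectors of norm `N` over the transpositions of `Fin k`. -/
structure Sys (b : LinearMap.BilinForm ℚ_[p] V) (k : ℕ) (N : ℚ_[p]) (Δ : Set V)
    (Over : Fin k → Fin k → V → Prop) : Prop where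
  ne : N ≠ 0
  norm : ∀ x ∈ Δ, b x x = N
  ov : ∀ x ∈ Δ, ∃ a c, a ≠ c ∧ Over a c x
  symm : ∀ a c x, Over a c x → Over c a x
  ex : ∀ a c, a ≠ c → ∃ x ∈ Δ, Over a c x
  adj : ∀ a c d x y, x ∈ Δ → y ∈ Δ → a ≠ c → a ≠ d → c ≠ d → Over a c x → Over a d y →
    ‖(2 * b x y / N) ^ 2 - 1‖ < 1
  dis : ∀ a c d e x y, x ∈ Δ → y ∈ Δ → a ≠ c → d ≠ e → a ≠ d → a ≠ e → c ≠ d → c ≠ e →
    Over a c x → Over d e y → ‖2 * b x y / N‖ < 1

theorem not_small {c : ℚ_[p]} (h1 : ‖c ^ 2 - 1‖ < 1) (h2 : ‖c‖ < 1) : False := by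
  have h3 : ‖c ^ 2‖ < 1 := by
    rw [norm_pow]
    exact pow_lt_one₀ (norm_nonneg _) h2 (by norm_num)
  have h4 : (1 : ℚ_[p]) = c ^ 2 - (c ^ 2 - 1) := by ring
  have h5 : ‖(1 : ℚ_[p])‖ ≤ max ‖c ^ 2‖ ‖c ^ 2 - 1‖ := by
    have h6 := IsUltrametricDist.norm_add_le_max (c ^ 2) (-(c ^ 2 - 1))
    rw [norm_neg, ← sub_eq_add_neg, ← h4] at h6
    exact h6
  rw [norm_one] at h5
  exact absurd h5 (not_le.mpr (max_lt h3 h1))

section Orbit

variable [FiniteDimensional ℚ_[p] V] {G : Type*} [Group G]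

/-- The roots conjugate to the root of one reflection over a transposition. -/
theorem sys_of (ρ : G →* Module.End ℚ_[p] V) (b : LinearMap.BilinForm ℚ_[p] V)
    (hs : ∀ x y, b x y = b y x) (hb : ∀ g x y, b (ρ g x) (ρ g y) = b x y) {k : ℕ}
    (π₁ π₂ : G →* Perm (Fin k)) (hdim : Module.finrank ℚ_[p] V + 4 = 2 * k)
    (htr : ∀ g, ‖LinearMap.trace ℚ_[p] V (ρ g) - ((fx (π₁ g) : ℚ_[p]) + fx (π₂ g) - 4)‖ < 1)
    (ht : ∀ a c d e : Fin k, a ≠ c → d ≠ e → ∃ g, π₁ g a = d ∧ π₁ g c = e)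
    {g₀ : G} {v₀ : V} (hv : b v₀ v₀ ≠ 0) (hg : ρ g₀ = refl b v₀) {a₀ c₀ : Fin k} (hac : a₀ ≠ c₀)
    (hπ : π₁ g₀ = swap a₀ c₀) (hπ₂ : π₂ g₀ = 1) :
    Sys b k (b v₀ v₀) {x | ∃ g, x = ρ g v₀}
      (fun a c x => ∃ g, ρ g = refl b x ∧ π₁ g = swap a c ∧ π₂ g = 1) := by
  have hover : ∀ g, ρ (g * g₀ * g⁻¹) = refl b (ρ g v₀) ∧
      π₁ (g * g₀ * g⁻¹) = swap (π₁ g a₀) (π₁ g c₀) ∧ π₂ (g * g₀ * g⁻¹) = 1 := by
    intro g
    refine ⟨?_, ?_, ?_⟩
    · rw [map_mul, map_mul, hg, refl_conj ρ b hb]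
    · rw [map_mul, map_mul, hπ, map_inv, swap_apply_apply]
    · rw [map_mul, map_mul, hπ₂, mul_one, ← map_mul, mul_inv_cancel, map_one]
  have hnorm : ∀ x ∈ {x | ∃ g, x = ρ g v₀}, b x x = b v₀ v₀ := by
    rintro x ⟨g, rfl⟩
    exact hb g v₀ v₀
  have hval : ∀ x y, x ∈ {x | ∃ g, x = ρ g v₀} → y ∈ {x | ∃ g, x = ρ g v₀} → ∀ g g' : G,
      ρ g = refl b x → ρ g' = refl b y → ‖(2 * b x y / b v₀ v₀) ^ 2 -
        ((fx (π₁ (g * g')) : ℚ_[p]) + fx (π₂ (g * g')) - 2 * k + 4)‖ < 1 := by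
    intro x y hx hy g g' h1 h2
    have h3 := val ρ b hs π₁ π₂ hdim htr (by rw [hnorm x hx]; exact hv)
      (by rw [hnorm y hy]; exact hv) h1 h2
    rw [hnorm x hx, hnorm y hy] at h3
    convert h3 using 3
    field_simp
    ring
  refine ⟨hv, hnorm, ?_, ?_, ?_, ?_, ?_⟩
  · rintro x ⟨g, rfl⟩
    exact ⟨π₁ g a₀, π₁ g c₀, fun h => hac ((π₁ g).injective h), g * g₀ * g⁻¹, hover g⟩
  · rintro a c x ⟨g, h1, h2, h3⟩
    exact ⟨g, h1, by rw [h2, swap_comm], h3⟩
  · intro a c hne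
    obtain ⟨g, h1, h2⟩ := ht a₀ c₀ a c hac hne
    refine ⟨ρ g v₀, ⟨g, rfl⟩, g * g₀ * g⁻¹, ?_⟩
    have h3 := hover g
    rw [h1, h2] at h3
    exact h3
  · rintro a c d x y hx hy h1 h2 h3 ⟨g, hg1, hg2, hg3⟩ ⟨g', hg1', hg2', hg3'⟩
    have h4 := hval x y hx hy g g' hg1 hg1'
    have h5 : (fx (π₁ (g * g')) : ℚ_[p]) + 3 = k := by
      rw [map_mul, hg2, hg2']
      exact_mod_cast fx_adj h1 h2 h3
    have h6 : (fx (π₂ (g * g')) : ℚ_[p]) = k := by
      rw [map_mul, hg3, hg3', mul_one, fx_one]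
    rw [h6] at h4
    convert h4 using 2
    linear_combination h5
  · rintro a c d e x y hx hy h1 h2 h3 h4 h5 h6 ⟨g, hg1, hg2, hg3⟩ ⟨g', hg1', hg2', hg3'⟩
    have h7 := hval x y hx hy g g' hg1 hg1'
    have h8 : (fx (π₁ (g * g')) : ℚ_[p]) + 4 = k := by
      rw [map_mul, hg2, hg2']
      exact_mod_cast fx_dis h1 h2 h3 h4 h5 h6
    have h9 : (fx (π₂ (g * g')) : ℚ_[p]) = k := by
      rw [map_mul, hg3, hg3', mul_one, fx_one]
    have h10 : ‖(2 * b x y / b v₀ v₀) ^ 2‖ < 1 := by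
      rw [h9] at h7
      convert h7 using 2
      linear_combination h8
    rw [norm_pow] at h10
    by_contra hcon
    exact absurd h10 (not_lt.mpr (one_le_pow₀ (not_lt.mp hcon)))

end Orbit

section Comb

variable {b : LinearMap.BilinForm ℚ_[p] V} {k : ℕ} {N : ℚ_[p]} {Δ : Set V}
  {Over : Fin k → Fin k → V → Prop}

/-- Subspaces that are orthogonal to the roots that they do not contain. -/
theorem Sys.conn (S : Sys b k N Δ Over) (hk : 3 ≤ k) (U : Submodule ℚ_[p] V)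
    (hU : ∀ δ ∈ Δ, δ ∈ U ∨ ∀ u ∈ U, b u δ = 0) {x y : V} (hx : x ∈ Δ) (hy : y ∈ Δ)
    (hxU : x ∈ U) : y ∈ U := by
  have step : ∀ a c d x y, x ∈ Δ → y ∈ Δ → a ≠ c → a ≠ d → c ≠ d → Over a c x → Over a d y →
      x ∈ U → y ∈ U := by
    intro a c d x y hx hy h1 h2 h3 h4 h5 hxU
    rcases hU y hy with h | h
    · exact h
    · exfalso
      have h6 := S.adj a c d x y hx hy h1 h2 h3 h4 h5
      rw [h x hxU] at h6
      norm_num at h6
  obtain ⟨a, c, hac, hxo⟩ := S.ov x hx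
  obtain ⟨d, e, hde, hyo⟩ := S.ov y hy
  by_cases h1 : a = d
  · subst h1
    by_cases h2 : c = e
    · subst h2
      obtain ⟨m, hm⟩ : ∃ m : Fin k, m ∉ ({a, c} : Finset (Fin k)) := by
        by_contra hcon
        push Not at hcon
        have h3 := Finset.card_le_card (fun m _ => hcon m : (Finset.univ : Finset (Fin k)) ⊆ {a, c})
        have h4 := Finset.card_le_two (a := a) (b := c)
        rw [Finset.card_univ, Fintype.card_fin] at h3
        omega
      rw [Finset.mem_insert, Finset.mem_singleton, not_or] at hm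
      obtain ⟨z, hz, hzo⟩ := S.ex a m (Ne.symm hm.1)
      have hzU := step a c m x z hx hz hac (Ne.symm hm.1) (Ne.symm hm.2) hxo hzo hxU
      exact step a m c z y hz hy (Ne.symm hm.1) hac hm.2 hzo hyo hzU
    · exact step a c e x y hx hy hac hde h2 hxo hyo hxU
  · by_cases h2 : a = e
    · subst h2
      by_cases h3 : c = d
      · subst h3
        obtain ⟨m, hm⟩ : ∃ m : Fin k, m ∉ ({a, c} : Finset (Fin k)) := by
          by_contra hcon
          push Not at hcon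
          have h3 := Finset.card_le_card
            (fun m _ => hcon m : (Finset.univ : Finset (Fin k)) ⊆ {a, c})
          have h4 := Finset.card_le_two (a := a) (b := c)
          rw [Finset.card_univ, Fintype.card_fin] at h3
          omega
        rw [Finset.mem_insert, Finset.mem_singleton, not_or] at hm
        obtain ⟨z, hz, hzo⟩ := S.ex a m (Ne.symm hm.1)
        have hzU := step a c m x z hx hz hac (Ne.symm hm.1) (Ne.symm hm.2) hxo hzo hxU
        exact step a m c z y hz hy (Ne.symm hm.1) hac hm.2 hzo (S.symm _ _ _ hyo) hzU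
      · exact step a c d x y hx hy hac h1 h3 hxo (S.symm _ _ _ hyo) hxU
    · by_cases h3 : c = d
      · subst h3
        exact step c a e x y hx hy (Ne.symm hac) hde h2 (S.symm _ _ _ hxo) hyo hxU
      · by_cases h4 : c = e
        · subst h4
          exact step c a d x y hx hy (Ne.symm hac) h3 h1 (S.symm _ _ _ hxo) (S.symm _ _ _ hyo) hxU
        · obtain ⟨z, hz, hzo⟩ := S.ex a d h1
          have hzU := step a c d x z hx hz hac h1 h3 hxo hzo hxU
          exact step d a e z y hz hy (Ne.symm h1) hde h2 (S.symm _ _ _ hzo) hyo hzU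

/-- Roots over different transpositions are independent. -/
theorem Sys.indep (S : Sys b k N Δ Over) (hk : 5 ≤ k) {x y : V} (hx : x ∈ Δ) (hy : y ∈ Δ)
    {s c d e : Fin k} (hsc : s ≠ c) (hde : d ≠ e) (hsd : s ≠ d) (hse : s ≠ e) (hxo : Over s c x)
    (hyo : Over d e y) : LinearIndependent ℚ_[p] ![x, y] := by
  obtain ⟨m, hm⟩ : ∃ m : Fin k, m ∉ ({s, c, d, e} : Finset (Fin k)) := by
    by_contra hcon
    push Not at hcon
    have h3 := Finset.card_le_card
      (fun m _ => hcon m : (Finset.univ : Finset (Fin k)) ⊆ {s, c, d, e})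
    have h4 := Finset.card_le_four (a := s) (b := c) (c := d) (d := e)
    rw [Finset.card_univ, Fintype.card_fin] at h3
    omega
  simp only [Finset.mem_insert, Finset.mem_singleton, not_or] at hm
  obtain ⟨hm1, hm2, hm3, hm4⟩ := hm
  obtain ⟨z, hz, hzo⟩ := S.ex s m (Ne.symm hm1)
  have h1 := S.adj s c m x z hx hz hsc (Ne.symm hm1) (Ne.symm hm2) hxo hzo
  have h2 := S.dis d e s m y z hy hz hde (Ne.symm hm1) (Ne.symm hsd) (Ne.symm hm3) (Ne.symm hse)
    (Ne.symm hm4) hyo hzo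
  have hx0 : x ≠ 0 := by
    intro h
    have := S.norm x hx
    rw [h, map_zero] at this
    exact S.ne this.symm
  rw [LinearIndependent.pair_iff' hx0]
  intro a ha
  have h3 : a ^ 2 = 1 := by
    have h4 := S.norm y hy
    rw [← ha, map_smul, map_smul, LinearMap.smul_apply, S.norm x hx, smul_eq_mul, smul_eq_mul] at h4
    have h5 := S.ne
    have h6 : (a ^ 2 - 1) * N = 0 := by linear_combination h4
    rcases mul_eq_zero.mp h6 with h7 | h7
    · linear_combination h7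
    · exact absurd h7 h5
  have h4 : (2 * b y z / N) ^ 2 = (2 * b x z / N) ^ 2 := by
    rw [← ha, map_smul, LinearMap.smul_apply, smul_eq_mul]
    have : (2 * (a * b x z) / N) ^ 2 = a ^ 2 * (2 * b x z / N) ^ 2 := by ring
    rw [this, h3, one_mul]
  rw [← h4] at h1
  exact not_small h1 h2

/-- Paths. -/
theorem Sys.path (S : Sys b k N Δ Over) {r : ℕ} (hr : r + 1 ≤ k) :
    ∃ v : Fin r → V, (∀ i, v i ∈ Δ) ∧
      (∀ i : Fin r, Over ⟨i, by omega⟩ ⟨i + 1, by omega⟩ (v i)) ∧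
      (∀ i j : Fin r, (i : ℕ) + 1 = j → ‖(2 * b (v i) (v j) / N) ^ 2 - 1‖ < 1) ∧
      (∀ i j : Fin r, (i : ℕ) + 1 < j → ‖2 * b (v i) (v j) / N‖ < 1) := by
  have h : ∀ i : Fin r, ∃ x ∈ Δ, Over ⟨i, by omega⟩ ⟨i + 1, by omega⟩ x := by
    intro i
    apply S.ex
    intro h
    have := congrArg Fin.val h
    simp at this
  choose v hv hvo using h
  refine ⟨v, hv, hvo, ?_, ?_⟩
  · intro i j hij
    have h1 := S.symm _ _ _ (hvo i)
    have h2 := hvo j
    have h3 : (⟨j, by omega⟩ : Fin k) = ⟨i + 1, by omega⟩ := by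
      apply Fin.ext
      simp [hij]
    rw [h3] at h2
    refine S.adj _ _ _ _ _ (hv i) (hv j) ?_ ?_ ?_ h1 h2 <;>
    · intro h
      rw [Fin.mk.injEq] at h
      omega
  · intro i j hij
    refine S.dis _ _ _ _ _ _ (hv i) (hv j) ?_ ?_ ?_ ?_ ?_ ?_ (hvo i) (hvo j) <;>
    · intro h
      rw [Fin.mk.injEq] at h
      omega

end Comb

end Pool.Agent.TD
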