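import Pool.Agent.Lib_helper48.TD.TD15

/-!
# Infinite image for `p = 2` (MP_97f789_ag, Theorem D)
-/

set_option autoImplicit false

namespace Pool.Agent.TD

open Equiv

theorem hinf_two {V : Type*} [AddCommGroup V] [Module ℚ_[2] V] [FiniteDimensional ℚ_[2] V]
    {G : Type*} [Group G] (ρ : G →* Module.End ℚ_[2] V) (b : LinearMap.BilinForm ℚ_[2] V)
    (hs : ∀ x y, b x y = b y x) (hb : ∀ g x y, b (ρ g x) (ρ g y) = b x y) {k : ℕ} (hk : 5 ≤ k)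
    (π₁ π₂ : G →* Perm (Fin k)) (hdim : Module.finrank ℚ_[2] V + 4 = 2 * k)
    (htr : ∀ g, ‖LinearMap.trace ℚ_[2] V (ρ g) - ((fx (π₁ g) : ℚ_[2]) + fx (π₂ g) - 4)‖ < 1)
    (N M : ℚ_[2]) (Δ E : Set V) (S : Side ρ b k π₁ π₂ N Δ) (T : Side ρ b k π₂ π₁ M E)
    (h : ∃ x ∈ Δ, ∃ y ∈ E, b x y ≠ 0) : ∃ g, ∀ m, 0 < m → ρ (g ^ m) ≠ 1 := by
  obtain ⟨x, hx, y, hy, hxy⟩ := h
  obtain ⟨x', hx', y', hy', h'⟩ := td_inf ρ b hs hb hk π₁ π₂ S T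
    (fun x hx y hy => cross ρ b hs π₁ π₂ hdim htr S T hx hy) hx hy hxy
  have hr : ∀ δ ∈ Δ ∪ E, ∃ g, ρ g = refl b δ := by
    rintro δ (h | h)
    · exact S.refl δ h
    · exact T.refl δ h
  obtain ⟨g, hg⟩ := hr x' hx'
  obtain ⟨g', hg'⟩ := hr y' hy'
  refine ⟨g * g', fun m hm h1 => h' m hm ?_⟩
  rw [← h1, map_pow, map_mul, hg, hg']

end Pool.Agent.TD
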